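import Pool.Agent.Lib_MP_db1ca7_fl.Bie5

/-!
# MP_db1ca7_gt: the bound for groups with a rational decomposition into tame pieces

`Γ` acts totally discontinuously on the Euclidean space `E`.  First part: `Γ` preserves the flat `a + U`, on which it acts as a crystallographic group: `U` is the direct sum of
subspaces `V j`, invariant under the linear parts, each spanned by vectors `t` such that some `γ ∈ Γ` moves the flat by the translation by `t`.
Every `V j` is tame.  Then there are at most `2 ^ dim U` conjugacy classes of maximal finite subgroups.  Second part: if the whole space is tame there are at most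
`2 ^ dim E` classes; no cocompactness is assumed.
-/

set_option autoImplicit false

open Pool.MP_db1ca7_gt

namespace Pool.Agent.Results.MP_db1ca7_gt.Decomp

theorem result {E : Type} [NormedAddCommGroup E] [InnerProductSpace ℝ E] [FiniteDimensional ℝ E]
    (Γ : Subgroup (E ≃ᵢ E)) (hΓ : TotDisc Γ) :
    (∀ (a : E) (U : Submodule ℝ E) (r : ℕ) (V : Fin r → Submodule ℝ E), Split Γ a U V → (∀ j, Tame Γ (V j)) →
      (Classes Γ).encard ≤ 2 ^ Module.finrank ℝ U) ∧
    (Tame Γ ⊤ → (Classes Γ).encard ≤ 2 ^ Module.finrank ℝ E) := by
  refine ⟨fun a U r V hV hT => ?_, fun hT => bound_tame hΓ hT⟩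
  have h2 := (hV.NB hΓ hT).encard_le
  exact_mod_cast h2

end Pool.Agent.Results.MP_db1ca7_gt.Decomp
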