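import Pool.Agent.Lib_MP_db1ca7_fl.Bie5

/-!
# MP_db1ca7_gt: a Kraft inequality for maximal finite subgroups

`Γ` acts totally discontinuously on the Euclidean space `E`.  It acts cocompactly on an invariant flat `a + U` (for a crystallographic group
`U` is the whole space).  `F i` are pairwise non-conjugate maximal finite subgroups such that, for `i ≠ j`, the linear part of every element of
every conjugate of `F j` preserves the direction space of the fixed set of `F i` in the flat.  Then the sum of `2 ^ dim (Fix (F i) ∩ (a + U))` is at most `2 ^ dim U`,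
and the sum of `2 ^ dim (Fix (F i))` is at most `2 ^ dim E`.
-/

set_option autoImplicit false

open Pool.MP_db1ca7_gt

namespace Pool.Agent.Results.MP_db1ca7_gt.Kraft

theorem result {E : Type} [NormedAddCommGroup E] [InnerProductSpace ℝ E] [FiniteDimensional ℝ E]
    (Γ : Subgroup (E ≃ᵢ E)) (hΓ : TotDisc Γ) :
    (∃ (a : E) (U : Submodule ℝ E), CoFlat Γ a U) ∧
    ∀ (a : E) (U : Submodule ℝ E), CoFlat Γ a U →
      ∀ (m : ℕ) (F : Fin m → Subgroup (E ≃ᵢ E)), (∀ i, MF Γ (F i)) → (∀ i j, i ≠ j → ∀ γ ∈ Γ, cj γ (F i) ≠ F j) →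
        (∀ i j, i ≠ j → ∀ γ ∈ Γ, ∀ g ∈ cj γ (F j), ∀ v ∈ U, v ∈ Dr (F i) → lin g v ∈ Dr (F i)) →
        ∑ i, 2 ^ Module.finrank ℝ (U ⊓ Dr (F i) : Submodule ℝ E) ≤ 2 ^ Module.finrank ℝ U ∧
          ∑ i, 2 ^ Module.finrank ℝ (Dr (F i)) ≤ 2 ^ Module.finrank ℝ E := by
  refine ⟨?_, fun a U hU m F hF hnc hcomp => kraft_coflat hΓ hU F hF hnc hcomp⟩
  obtain ⟨a, U, h, _⟩ := exists_coflat hΓ.PD
  exact ⟨a, U, h⟩

end Pool.Agent.Results.MP_db1ca7_gt.Kraft
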